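import Mathlib

/-!
# MP_f7d7fe_co, question Q1

For every positive integer `n` there is a primitive lattice tiling with exactly `n` translates.

Tilings by lattices containing `2 ℤ^d` are partitions of `F_2^d` in affine subspaces.  From a pair of
primitive partitions `C ∪ {ab, cd}` and `C ∪ {ac, bd}` of a space one gets, in one more dimension, a
primitive partition with two more parts, and again such a pair.  The start is `n = 4` in dimension 3
and `n = 7` in dimension 4.
-/

namespace Pool.Agent.Results.MP_f7d7fe_co.EveryNumber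

open Finset

/-- `A` is a lattice translate in `ℤ^d`: a coset `v + L` of a subgroup `L` of finite index. -/
def IsLatticeTranslate {d : ℕ} (A : Set (Fin d → ℤ)) : Prop :=
  ∃ (L : AddSubgroup (Fin d → ℤ)) (v : Fin d → ℤ), L.FiniteIndex ∧ A = {x | x - v ∈ L}

/-- The family `A` is a lattice tiling of `ℤ^d` with `n` lattice translates. -/
def IsLatticeTiling {d n : ℕ} (A : Fin n → Set (Fin d → ℤ)) : Prop :=
  (∀ i, IsLatticeTranslate (A i)) ∧ (∀ i j, i ≠ j → Disjoint (A i) (A j)) ∧
    (⋃ i, A i) = Set.univ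

/-- The tiling splits: the index set has a partition in `k ≥ 2` nonempty blocks, at least one of them
with at least two elements, such that the union of the tiles of each block is a lattice
translate. -/
def Splits {d n : ℕ} (A : Fin n → Set (Fin d → ℤ)) : Prop :=
  ∃ (k : ℕ) (c : Fin n → Fin k), 2 ≤ k ∧ Function.Surjective c ∧
    (∃ i j, i ≠ j ∧ c i = c j) ∧
    ∀ j : Fin k, IsLatticeTranslate (⋃ (i : Fin n) (_ : c i = j), A i)

/-- The tiling is primitive: it does not split. -/
def IsPrimitive {d n : ℕ} (A : Fin n → Set (Fin d → ℤ)) : Prop := ¬ Splits A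

/-! ### Partitions of finite abelian groups -/

section group

variable {V : Type} [AddCommGroup V] [Fintype V] [DecidableEq V]

/-- Nonempty and closed under `x - y + z` (that is, a coset). -/
def Cl (U : Finset V) : Prop :=
  U.Nonempty ∧ ∀ x ∈ U, ∀ y ∈ U, ∀ z ∈ U, x - y + z ∈ U

/-- `T` is contained in `U` or disjoint from it. -/
def Sat (T U : Finset V) : Prop := ∀ x ∈ T, ∀ y ∈ T, x ∈ U → y ∈ U

/-- A partition in cosets such that the only cosets which are unions of parts are the parts and the
whole group. -/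
structure IsIrr (P : Finset (Finset V)) : Prop where
  cl : ∀ T ∈ P, Cl T
  cover : ∀ x, ∃ T ∈ P, x ∈ T
  disj : ∀ S ∈ P, ∀ T ∈ P, ∀ x, x ∈ S → x ∈ T → S = T
  irr : ∀ U, Cl U → (∀ T ∈ P, Sat T U) → U = univ ∨ U ∈ P

theorem translate_of_cl {d : ℕ} (f : (Fin d → ℤ) →+ V) (hf : Function.Surjective f)
    {T : Finset V} (hT : Cl T) : IsLatticeTranslate {x | f x ∈ T} := by
  obtain ⟨⟨t, ht⟩, hcl⟩ := hT
  let H : AddSubgroup V :=
    { carrier := {h | h + t ∈ T}
      zero_mem' := by simpa using ht
      add_mem' := by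
        intro a b ha hb
        have := hcl (a + t) ha t ht (b + t) hb
        have h2 : a + t - t + (b + t) = a + b + t := by abel
        rw [h2] at this
        exact this
      neg_mem' := by
        intro a ha
        have := hcl t ht (a + t) ha t ht
        have h2 : t - (a + t) + t = -a + t := by abel
        rw [h2] at this
        exact this }
  obtain ⟨u, hu⟩ := hf t
  have hker : (f.ker).FiniteIndex := inferInstance
  refine ⟨H.comap f, u, ?_, ?_⟩
  · exact AddSubgroup.finiteIndex_of_le (H := f.ker) (by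
      intro x hx
      rw [AddMonoidHom.mem_ker] at hx
      rw [AddSubgroup.mem_comap, hx]
      exact H.zero_mem)
  · ext x
    rw [Set.mem_ofPred_eq, Set.mem_ofPred_eq, AddSubgroup.mem_comap]
    change f x ∈ T ↔ f (x - u) + t ∈ T
    rw [map_sub, hu, sub_add_cancel]

/-- Transfer to `ℤ^d`. -/
theorem exists_tiling {P : Finset (Finset V)} (hP : IsIrr P) :
    ∃ (d : ℕ) (A : Fin P.card → Set (Fin d → ℤ)), 1 ≤ d ∧ IsLatticeTiling A ∧ IsPrimitive A := by
  obtain ⟨d0, g, hg⟩ := Module.Finite.exists_fin' ℤ V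
  -- add one more coordinate, so that the dimension is positive
  let f : (Fin (d0 + 1) → ℤ) →+ V :=
    g.toAddMonoidHom.comp (AddMonoidHom.mk' (fun x i => x i.succ) (fun _ _ => rfl))
  have hf : Function.Surjective f := by
    intro v
    obtain ⟨x, hx⟩ := hg v
    exact ⟨Fin.cons 0 x, by simpa [f] using hx⟩
  let e := P.equivFin
  let T : Fin P.card → Finset V := fun i => (e.symm i).1
  have hT : ∀ i, T i ∈ P := fun i => (e.symm i).2
  have hTinj : Function.Injective T := Subtype.val_injective.comp e.symm.injective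
  have hTsurj : ∀ S ∈ P, ∃ i, T i = S := fun S hS => ⟨e ⟨S, hS⟩, by simp [T]⟩
  refine ⟨d0 + 1, fun i => {x | f x ∈ T i}, by omega, ⟨fun i => ?_, fun i j hij => ?_, ?_⟩, ?_⟩
  · exact translate_of_cl f hf (hP.cl _ (hT i))
  · rw [Set.disjoint_left]
    intro x hx hx'
    exact hij (hTinj (hP.disj _ (hT i) _ (hT j) (f x) hx hx'))
  · rw [Set.eq_univ_iff_forall]
    intro x
    obtain ⟨S, hS, hx⟩ := hP.cover (f x)
    obtain ⟨i, rfl⟩ := hTsurj S hS
    exact Set.mem_iUnion.mpr ⟨i, hx⟩
  · rintro ⟨k, c, hk, hc, ⟨i1, i2, hne, h12⟩, hU⟩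
    obtain ⟨L, v, -, hL⟩ := hU (c i1)
    -- the corresponding union of parts
    let U : Finset V := univ.filter fun y => ∃ i, c i = c i1 ∧ y ∈ T i
    have memU : ∀ y, y ∈ U ↔ ∃ i, c i = c i1 ∧ y ∈ T i := fun y => by simp [U]
    have key : ∀ x, f x ∈ U ↔ x - v ∈ L := by
      intro x
      have h1 : x ∈ (⋃ (i : Fin P.card) (_ : c i = c i1), {x | f x ∈ T i}) ↔ x - v ∈ L := by
        rw [hL, Set.mem_ofPred_eq]
      rw [← h1, memU]
      simp
    have hcl : Cl U := by
      constructor
      · obtain ⟨t, ht⟩ := (hP.cl _ (hT i1)).1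
        exact ⟨t, (memU t).mpr ⟨i1, rfl, ht⟩⟩
      · intro x hx y hy z hz
        obtain ⟨x, rfl⟩ := hf x
        obtain ⟨y, rfl⟩ := hf y
        obtain ⟨z, rfl⟩ := hf z
        rw [key] at hx hy hz
        rw [← map_sub, ← map_add, key]
        have : x - y + z - v = (x - v) - (y - v) + (z - v) := by abel
        rw [this]
        exact L.add_mem (L.sub_mem hx hy) hz
    have hsat : ∀ S ∈ P, Sat S U := by
      intro S hS x hx y hy hxU
      obtain ⟨i, hi, hxi⟩ := (memU x).mp hxU
      have := hP.disj _ hS _ (hT i) x hx hxi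
      subst this
      exact (memU y).mpr ⟨i, hi, hy⟩
    rcases hP.irr U hcl hsat with h | h
    · -- then there is only one block
      have hall : ∀ i, c i = c i1 := by
        intro i
        obtain ⟨t, ht⟩ := (hP.cl _ (hT i)).1
        obtain ⟨j, hj, htj⟩ := (memU t).mp (h ▸ mem_univ t)
        have := hTinj (hP.disj _ (hT i) _ (hT j) t ht htj)
        rw [this, hj]
      obtain ⟨j, hj⟩ : ∃ j : Fin k, j ≠ c i1 := by
        have : Nontrivial (Fin k) := Fin.nontrivial_iff_two_le.mpr hk
        exact exists_ne _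
      obtain ⟨i, rfl⟩ := hc j
      exact hj (hall i)
    · obtain ⟨t1, ht1⟩ := (hP.cl _ (hT i1)).1
      obtain ⟨t2, ht2⟩ := (hP.cl _ (hT i2)).1
      have e1 := hP.disj _ h _ (hT i1) t1 ((memU t1).mpr ⟨i1, rfl, ht1⟩) ht1
      have e2 := hP.disj _ h _ (hT i2) t2 ((memU t2).mpr ⟨i2, h12.symm, ht2⟩) ht2
      exact hne (hTinj (e1.symm.trans e2))

/-- The data of the induction. -/
structure Good (C : Finset (Finset V)) (a b c d : V) : Prop where
  two : ∀ x : V, x + x = 0
  ne : C.Nonempty
  cl : ∀ T ∈ C, Cl T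
  even : ∀ T ∈ C, Even T.card
  ab : a ≠ b
  ac : a ≠ c
  ad : a ≠ d
  bc : b ≠ c
  bd : b ≠ d
  cd : c ≠ d
  na : ∀ T ∈ C, a ∉ T
  nb : ∀ T ∈ C, b ∉ T
  nc : ∀ T ∈ C, c ∉ T
  nd : ∀ T ∈ C, d ∉ T
  cover : ∀ x, x = a ∨ x = b ∨ x = c ∨ x = d ∨ ∃ T ∈ C, x ∈ T
  disj : ∀ S ∈ C, ∀ T ∈ C, ∀ x, x ∈ S → x ∈ T → S = T
  irr1 : ∀ U, Cl U → (∀ T ∈ C, Sat T U) → (a ∈ U ↔ b ∈ U) → (c ∈ U ↔ d ∈ U) →
    U = univ ∨ U ∈ C ∨ U = {a, b} ∨ U = {c, d}
  irr2 : ∀ U, Cl U → (∀ T ∈ C, Sat T U) → (a ∈ U ↔ c ∈ U) → (b ∈ U ↔ d ∈ U) →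
    U = univ ∨ U ∈ C ∨ U = {a, c} ∨ U = {b, d}

theorem cl_pair (h2 : ∀ x : V, x + x = 0) (p q : V) : Cl {p, q} := by
  have hneg : ∀ x : V, -x = x := fun x => neg_eq_of_add_eq_zero_left (h2 x)
  refine ⟨⟨p, by simp⟩, ?_⟩
  intro x hx y hy z hz
  rw [sub_eq_add_neg, hneg]
  simp only [mem_insert, mem_singleton] at hx hy hz ⊢
  have hA : ∀ x y : V, x + x + y = y := fun x y => by rw [h2, zero_add]
  have hB : ∀ x y : V, x + y + y = x := fun x y => by rw [add_assoc, h2, add_zero]
  have hC : ∀ x y : V, x + y + x = y := fun x y => by rw [add_comm x y, hB]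
  rcases hx with rfl | rfl <;> rcases hy with rfl | rfl <;> rcases hz with rfl | rfl <;>
    simp only [hA, hB, hC, true_or, or_true]

/-- A `Good` configuration gives an irreducible partition. -/
theorem Good.isIrr {C : Finset (Finset V)} {a b c d : V} (h : Good C a b c d) :
    IsIrr (insert {a, b} (insert {c, d} C)) where
  cl := by
    intro T hT
    rw [mem_insert, mem_insert] at hT
    rcases hT with rfl | rfl | hT
    · exact cl_pair h.two _ _
    · exact cl_pair h.two _ _
    · exact h.cl T hT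
  cover := by
    intro x
    rcases h.cover x with rfl | rfl | rfl | rfl | ⟨T, hT, hx⟩
    · exact ⟨_, mem_insert_self _ _, by simp⟩
    · exact ⟨_, mem_insert_self _ _, by simp⟩
    · exact ⟨_, mem_insert_of_mem (mem_insert_self _ _), by simp⟩
    · exact ⟨_, mem_insert_of_mem (mem_insert_self _ _), by simp⟩
    · exact ⟨T, mem_insert_of_mem (mem_insert_of_mem hT), hx⟩
  disj := by
    have hab := h.ab
    have hac := h.ac
    have had := h.ad
    have hbc := h.bc
    have hbd := h.bd
    have hcd := h.cd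
    intro S hS T hT x hxS hxT
    rw [mem_insert, mem_insert] at hS hT
    rcases hS with rfl | rfl | hS <;> rcases hT with rfl | rfl | hT
    · rfl
    · exfalso
      simp only [mem_insert, mem_singleton] at hxS hxT
      rcases hxS with rfl | rfl <;> rcases hxT with h1 | h1 <;> contradiction
    · exfalso
      simp only [mem_insert, mem_singleton] at hxS
      rcases hxS with rfl | rfl
      · exact h.na T hT hxT
      · exact h.nb T hT hxT
    · exfalso
      simp only [mem_insert, mem_singleton] at hxS hxT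
      rcases hxS with rfl | rfl <;> rcases hxT with h1 | h1 <;> exact absurd h1.symm ‹_›
    · rfl
    · exfalso
      simp only [mem_insert, mem_singleton] at hxS
      rcases hxS with rfl | rfl
      · exact h.nc T hT hxT
      · exact h.nd T hT hxT
    · exfalso
      simp only [mem_insert, mem_singleton] at hxT
      rcases hxT with rfl | rfl
      · exact h.na S hS hxS
      · exact h.nb S hS hxS
    · exfalso
      simp only [mem_insert, mem_singleton] at hxT
      rcases hxT with rfl | rfl
      · exact h.nc S hS hxS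
      · exact h.nd S hS hxS
    · exact h.disj S hS T hT x hxS hxT
  irr := by
    intro U hU hsat
    have h1 := hsat {a, b} (mem_insert_self _ _)
    have h2 := hsat {c, d} (mem_insert_of_mem (mem_insert_self _ _))
    rcases h.irr1 U hU (fun T hT => hsat T (mem_insert_of_mem (mem_insert_of_mem hT)))
      ⟨fun ha => h1 a (by simp) b (by simp) ha, fun hb => h1 b (by simp) a (by simp) hb⟩
      ⟨fun ha => h2 c (by simp) d (by simp) ha, fun hb => h2 d (by simp) c (by simp) hb⟩
      with h3 | h3 | h3 | h3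
    · exact Or.inl h3
    · exact Or.inr (mem_insert_of_mem (mem_insert_of_mem h3))
    · exact Or.inr (h3 ▸ mem_insert_self _ _)
    · exact Or.inr (h3 ▸ mem_insert_of_mem (mem_insert_self _ _))

theorem Good.card {C : Finset (Finset V)} {a b c d : V} (h : Good C a b c d) :
    (insert {a, b} (insert {c, d} C)).card = C.card + 2 := by
  have h1 : ({c, d} : Finset V) ∉ C := fun h' => h.nc _ h' (by simp)
  have h2 : ({a, b} : Finset V) ∉ insert {c, d} C := by
    rw [mem_insert]
    rintro (h' | h')
    · have : a ∈ ({c, d} : Finset V) := h' ▸ (by simp)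
      simp only [mem_insert, mem_singleton] at this
      rcases this with h3 | h3
      · exact h.ac h3
      · exact h.ad h3
    · exact h.na _ h' (by simp)
  rw [card_insert_of_notMem h2, card_insert_of_notMem h1]

/-- Parity: a coset containing exactly one of `a, b` and otherwise a union of parts is a
singleton. -/
theorem Good.single {C : Finset (Finset V)} {a b c d : V} (h : Good C a b c d) {U : Finset V}
    (hU : Cl U) (hsat : ∀ T ∈ C, Sat T U) (hcd : c ∈ U ↔ d ∈ U) {e : V} (he : e ∈ U)
    (heab : e = a ∨ e = b) (hone : ∀ x ∈ U, x = a ∨ x = b → x = e) : U = {e} := by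
  by_contra hne
  -- another element gives an involution without fixed points
  obtain ⟨x, hx, hxe⟩ : ∃ x ∈ U, x ≠ e := by
    by_contra hcon
    push Not at hcon
    exact hne (eq_singleton_iff_unique_mem.mpr ⟨he, hcon⟩)
  have hneg : ∀ x : V, -x = x := fun x => neg_eq_of_add_eq_zero_left (h.two x)
  have heven : ((U.card : ℕ) : ZMod 2) = 0 := by
    rw [← nsmul_one, ← sum_const]
    refine sum_involution (fun y _ => x - e + y) ?_ ?_ ?_ ?_
    · intro y _
      decide
    · intro y _ _ hy
      apply hxe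
      have : x - e = 0 := by
        have h3 : x - e + y = 0 + y := by rw [hy, zero_add]
        exact add_right_cancel h3
      exact sub_eq_zero.mp this
    · intro y hy
      exact hU.2 x hx e he y hy
    · intro y _
      have : x - e + (x - e + y) = (x - e + (x - e)) + y := by abel
      rw [this, h.two, zero_add]
  -- counting by parts
  let K : Finset (Finset V) := (insert {c, d} C).filter fun T => T ⊆ U
  have hK : U.erase e = K.biUnion id := by
    ext y
    rw [mem_erase, mem_biUnion]
    constructor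
    · rintro ⟨hye, hy⟩
      rcases h.cover y with rfl | rfl | rfl | rfl | ⟨T, hT, hyT⟩
      · exact absurd (hone _ hy (Or.inl rfl)) hye
      · exact absurd (hone _ hy (Or.inr rfl)) hye
      · refine ⟨{y, d}, mem_filter.mpr ⟨mem_insert_self _ _, ?_⟩, by simp⟩
        intro z hz
        simp only [mem_insert, mem_singleton] at hz
        rcases hz with rfl | rfl
        · exact hy
        · exact hcd.mp hy
      · refine ⟨{c, y}, mem_filter.mpr ⟨mem_insert_self _ _, ?_⟩, by simp⟩
        intro z hz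
        simp only [mem_insert, mem_singleton] at hz
        rcases hz with rfl | rfl
        · exact hcd.mpr hy
        · exact hy
      · exact ⟨T, mem_filter.mpr ⟨mem_insert_of_mem hT, fun z hz => hsat T hT y hyT z hz hy⟩, hyT⟩
    · rintro ⟨T, hT, hyT⟩
      obtain ⟨hT1, hT2⟩ := mem_filter.mp hT
      refine ⟨?_, hT2 hyT⟩
      rintro rfl
      rw [mem_insert] at hT1
      rcases hT1 with rfl | hT1
      · simp only [id, mem_insert, mem_singleton] at hyT
        rcases heab with rfl | rfl
        · rcases hyT with h3 | h3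
          · exact h.ac h3
          · exact h.ad h3
        · rcases hyT with h3 | h3
          · exact h.bc h3
          · exact h.bd h3
      · rcases heab with rfl | rfl
        · exact h.na T hT1 hyT
        · exact h.nb T hT1 hyT
  have hdis : (K : Set (Finset V)).PairwiseDisjoint id := by
    intro S hS T hT hST
    obtain ⟨hS1, -⟩ := mem_filter.mp hS
    obtain ⟨hT1, -⟩ := mem_filter.mp hT
    rw [Function.onFun, disjoint_left]
    intro y hyS hyT
    exact hST (h.isIrr.disj S (mem_insert_of_mem hS1) T (mem_insert_of_mem hT1) y hyS hyT)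
  have hcard : Even (U.erase e).card := by
    rw [hK, card_biUnion hdis]
    refine even_sum _ fun T hT => ?_
    obtain ⟨hT1, -⟩ := mem_filter.mp hT
    rw [mem_insert] at hT1
    rcases hT1 with rfl | hT1
    · change Even ({c, d} : Finset V).card
      rw [card_pair h.cd]
      exact even_two
    · exact h.even T hT1
  have h4 := card_erase_add_one he
  have h5 : Even U.card := by
    rw [← ZMod.natCast_eq_zero_iff_even]
    exact heven
  rw [← h4, Nat.even_add_one] at h5
  exact h5 hcard


theorem Good.swap {C : Finset (Finset V)} {a b c d : V} (h : Good C a b c d) : Good C a c b d where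
  two := h.two
  ne := h.ne
  cl := h.cl
  even := h.even
  ab := h.ac
  ac := h.ab
  ad := h.ad
  bc := h.bc.symm
  bd := h.cd
  cd := h.bd
  na := h.na
  nb := h.nc
  nc := h.nb
  nd := h.nd
  cover := by
    intro x
    rcases h.cover x with h1 | h1 | h1 | h1 | h1
    · exact Or.inl h1
    · exact Or.inr (Or.inr (Or.inl h1))
    · exact Or.inr (Or.inl h1)
    · exact Or.inr (Or.inr (Or.inr (Or.inl h1)))
    · exact Or.inr (Or.inr (Or.inr (Or.inr h1)))
  disj := h.disj
  irr1 := h.irr2
  irr2 := h.irr1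

theorem zmod2 (i : ZMod 2) : i = 0 ∨ i = 1 := by
  revert i
  decide

theorem ext_slices {U W : Finset (V × ZMod 2)} (h0 : ∀ x, (x, (0 : ZMod 2)) ∈ U ↔ (x, 0) ∈ W)
    (h1 : ∀ x, (x, (1 : ZMod 2)) ∈ U ↔ (x, 1) ∈ W) : U = W := by
  ext ⟨x, i⟩
  rcases zmod2 i with rfl | rfl
  · exact h0 x
  · exact h1 x

theorem shift {U : Finset (V × ZMod 2)} (hU : Cl U) {x y z : V} {i j : ZMod 2}
    (hx : (x, i) ∈ U) (hy : (y, i) ∈ U) (hz : (z, j) ∈ U) : (x - y + z, j) ∈ U := by
  have := hU.2 _ hx _ hy _ hz
  have h2 : (x, i) - (y, i) + (z, j) = (x - y + z, j) := by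
    ext
    · rfl
    · simp
  rwa [h2] at this

theorem slice_cl {U : Finset (V × ZMod 2)} (hU : Cl U) {i : ZMod 2} {x : V} (hx : (x, i) ∈ U) :
    Cl (univ.filter fun y => (y, i) ∈ U) := by
  refine ⟨⟨x, by simpa using hx⟩, ?_⟩
  intro p hp q hq r hr
  simp only [mem_filter, mem_univ, true_and] at hp hq hr ⊢
  exact shift hU hp hq hr

/-- A slice which does not meet the parts in `C`. -/
theorem Good.slice {C : Finset (Finset V)} {a b c d : V} (h : Good C a b c d)
    {U : Finset (V × ZMod 2)} (hU : Cl U) (i : ZMod 2) (hno : ∀ T ∈ C, ∀ x ∈ T, (x, i) ∉ U)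
    (hab : (a, i) ∈ U ↔ (b, i) ∈ U) (hcd : (c, i) ∈ U ↔ (d, i) ∈ U) :
    (∀ x, (x, i) ∉ U) ∨ (∀ x, (x, i) ∈ U ↔ x = a ∨ x = b) ∨
      (∀ x, (x, i) ∈ U ↔ x = c ∨ x = d) := by
  by_cases hex : ∃ x, (x, i) ∈ U
  · obtain ⟨x, hx⟩ := hex
    have hmem : ∀ y, y ∈ (univ.filter fun y => (y, i) ∈ U) ↔ (y, i) ∈ U := fun y => by simp
    right
    rcases h.irr1 _ (slice_cl hU hx) (fun T hT p hp q _ hpU => absurd ((hmem p).mp hpU) (hno T hT p hp))
      (by rw [hmem, hmem]; exact hab) (by rw [hmem, hmem]; exact hcd) with h1 | h1 | h1 | h1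
    · exfalso
      obtain ⟨T, hT⟩ := h.ne
      obtain ⟨t, ht⟩ := (h.cl T hT).1
      refine hno T hT t ht ((hmem t).mp ?_)
      rw [h1]
      exact mem_univ t
    · exfalso
      exact hno _ h1 x ((hmem x).mpr hx) hx
    · left
      intro y
      rw [← hmem, h1, mem_insert, mem_singleton]
    · right
      intro y
      rw [← hmem, h1, mem_insert, mem_singleton]
  · left
    intro x hx
    exact hex ⟨x, hx⟩

/-- If both slices have a common element, they are equal. -/
theorem meet {U : Finset (V × ZMod 2)} (hU : Cl U) {x : V} (h0 : (x, (0 : ZMod 2)) ∈ U)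
    (h1 : (x, (1 : ZMod 2)) ∈ U) (y : V) : (y, (0 : ZMod 2)) ∈ U ↔ (y, (1 : ZMod 2)) ∈ U := by
  constructor
  · intro hy
    have := shift hU hy h0 h1
    rwa [sub_add_cancel] at this
  · intro hy
    have := shift hU hy h1 h0
    rwa [sub_add_cancel] at this

/-- The new parts. -/
def next (C : Finset (Finset V)) (b c d : V) : Finset (Finset (V × ZMod 2)) :=
  insert {(c, 0), (d, 0)} (insert {(b, 1), (d, 1)} (C.image fun T => T ×ˢ univ))

theorem Good.prism {C : Finset (Finset V)} {a b c d : V} (h : Good C a b c d)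
    {U : Finset (V × ZMod 2)} (hU : Cl U) (hsat : ∀ T ∈ C, Sat (T ×ˢ univ) U)
    (hab : (a, (0 : ZMod 2)) ∈ U ↔ (b, (0 : ZMod 2)) ∈ U)
    (hcd : (c, (0 : ZMod 2)) ∈ U ↔ (d, (0 : ZMod 2)) ∈ U)
    {T : Finset V} (hT : T ∈ C) {x : V} (hx : x ∈ T) (hxU : (x, (0 : ZMod 2)) ∈ U) :
    U = univ ∨ U ∈ next C b c d := by
  have hx1 : (x, (1 : ZMod 2)) ∈ U :=
    hsat T hT (x, 0) (by simpa using hx) (x, 1) (by simpa using hx) hxU
  have hm := meet hU hxU hx1
  have hmem : ∀ y, y ∈ (univ.filter fun y => (y, (0 : ZMod 2)) ∈ U) ↔ (y, (0 : ZMod 2)) ∈ U :=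
    fun y => by simp
  have hUeq : U = (univ.filter fun y => (y, (0 : ZMod 2)) ∈ U) ×ˢ univ := by
    refine ext_slices (fun y => ?_) (fun y => ?_)
    · rw [mem_product, hmem]
      simp
    · rw [mem_product, hmem, hm]
      simp
  have hs : ∀ S ∈ C, Sat S (univ.filter fun y => (y, (0 : ZMod 2)) ∈ U) := by
    intro S hS p hp q hq hpU
    rw [hmem] at hpU ⊢
    exact hsat S hS (p, 0) (by simpa using hp) (q, 0) (by simpa using hq) hpU
  rcases h.irr1 _ (slice_cl hU hxU) hs (by rw [hmem, hmem]; exact hab)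
    (by rw [hmem, hmem]; exact hcd) with h1 | h1 | h1 | h1
  · left
    rw [hUeq, h1]
    simp
  · right
    rw [next, mem_insert, mem_insert, mem_image]
    exact Or.inr (Or.inr ⟨_, h1, hUeq.symm⟩)
  · exfalso
    have := (hmem x).mpr hxU
    rw [h1, mem_insert, mem_singleton] at this
    rcases this with rfl | rfl
    · exact h.na T hT hx
    · exact h.nb T hT hx
  · exfalso
    have := (hmem x).mpr hxU
    rw [h1, mem_insert, mem_singleton] at this
    rcases this with rfl | rfl
    · exact h.nc T hT hx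
    · exact h.nd T hT hx

theorem char2 (h2 : ∀ x : V, x + x = 0) (x y : V) : x - y + x = y := by
  have h3 : x - y + x = (x + x) - y := by abel
  have h4 : -y = y := neg_eq_of_add_eq_zero_left (h2 y)
  rw [h3, h2, zero_sub, h4]

theorem Good.step {C : Finset (Finset V)} {a b c d : V} (h : Good C a b c d) :
    Good (next C b c d) ((a, 0) : V × ZMod 2) (b, 0) (c, 1) (a, 1) := by
  have h01 : (0 : ZMod 2) ≠ 1 := by decide
  have h10 : (1 : ZMod 2) ≠ 0 := by decide
  have hab := h.ab
  have hac := h.ac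
  have had := h.ad
  have hbc := h.bc
  have hbd := h.bd
  have hcd := h.cd
  have hba := h.ab.symm
  have hca := h.ac.symm
  have hda := h.ad.symm
  have hcb := h.bc.symm
  have hdb := h.bd.symm
  have hdc := h.cd.symm
  have htwo : ∀ x : V × ZMod 2, x + x = 0 := by
    rintro ⟨x, i⟩
    ext
    · exact h.two x
    · change i + i = 0
      revert i
      decide
  have hnx : ∀ S, S ∈ next C b c d ↔ S = {(c, 0), (d, 0)} ∨ S = {(b, 1), (d, 1)} ∨
      ∃ T ∈ C, T ×ˢ univ = S := by
    intro S
    rw [next, mem_insert, mem_insert, mem_image]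
  refine
    { two := htwo
      ne := ⟨_, mem_insert_self _ _⟩
      cl := ?_
      even := ?_
      ab := ?_
      ac := ?_
      ad := ?_
      bc := ?_
      bd := ?_
      cd := ?_
      na := ?_
      nb := ?_
      nc := ?_
      nd := ?_
      cover := ?_
      disj := ?_
      irr1 := ?_
      irr2 := ?_ }
  · intro S hS
    rcases (hnx S).mp hS with rfl | rfl | ⟨T, hT, rfl⟩
    · exact cl_pair htwo _ _
    · exact cl_pair htwo _ _
    · obtain ⟨⟨t, ht⟩, hcl⟩ := h.cl T hT
      refine ⟨⟨(t, 0), by simpa using ht⟩, ?_⟩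
      rintro ⟨x, i⟩ hx ⟨y, j⟩ hy ⟨z, k⟩ hz
      simp only [mem_product, mem_univ, and_true] at hx hy hz ⊢
      exact hcl x hx y hy z hz
  · intro S hS
    rcases (hnx S).mp hS with rfl | rfl | ⟨T, hT, rfl⟩
    · rw [card_pair (by simpa using hcd)]
      exact even_two
    · rw [card_pair (by simpa using hbd)]
      exact even_two
    · rw [card_product]
      exact (h.even T hT).mul_right _
  · simpa using hab
  · simp
  · simp
  · simp
  · simp
  · simpa using hca
  · intro S hS
    rcases (hnx S).mp hS with rfl | rfl | ⟨T, hT, rfl⟩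
    · simp [hac, had]
    · simp
    · simpa using h.na T hT
  · intro S hS
    rcases (hnx S).mp hS with rfl | rfl | ⟨T, hT, rfl⟩
    · simp [hbc, hbd]
    · simp
    · simpa using h.nb T hT
  · intro S hS
    rcases (hnx S).mp hS with rfl | rfl | ⟨T, hT, rfl⟩
    · simp
    · simp [hcb, hcd]
    · simpa using h.nc T hT
  · intro S hS
    rcases (hnx S).mp hS with rfl | rfl | ⟨T, hT, rfl⟩
    · simp
    · simp [hab, had]
    · simpa using h.na T hT
  · rintro ⟨x, i⟩
    rcases h.cover x with rfl | rfl | rfl | rfl | ⟨T, hT, hx⟩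
    · rcases zmod2 i with rfl | rfl
      · exact Or.inl rfl
      · exact Or.inr (Or.inr (Or.inr (Or.inl rfl)))
    · rcases zmod2 i with rfl | rfl
      · exact Or.inr (Or.inl rfl)
      · exact Or.inr (Or.inr (Or.inr (Or.inr ⟨{(x, 1), (d, 1)}, (hnx _).mpr (Or.inr (Or.inl rfl)),
          mem_insert_self _ _⟩)))
    · rcases zmod2 i with rfl | rfl
      · exact Or.inr (Or.inr (Or.inr (Or.inr ⟨{(x, 0), (d, 0)}, (hnx _).mpr (Or.inl rfl),
          mem_insert_self _ _⟩)))
      · exact Or.inr (Or.inr (Or.inl rfl))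
    · rcases zmod2 i with rfl | rfl
      · exact Or.inr (Or.inr (Or.inr (Or.inr ⟨{(c, 0), (x, 0)}, (hnx _).mpr (Or.inl rfl),
          mem_insert_of_mem (mem_singleton_self _)⟩)))
      · exact Or.inr (Or.inr (Or.inr (Or.inr ⟨{(b, 1), (x, 1)}, (hnx _).mpr (Or.inr (Or.inl rfl)),
          mem_insert_of_mem (mem_singleton_self _)⟩)))
    · exact Or.inr (Or.inr (Or.inr (Or.inr ⟨T ×ˢ univ, (hnx _).mpr (Or.inr (Or.inr ⟨T, hT, rfl⟩)),
        by simpa using hx⟩)))
  · intro S hS R hR x hxS hxR
    rcases (hnx S).mp hS with rfl | rfl | ⟨T, hT, rfl⟩ <;>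
      rcases (hnx R).mp hR with rfl | rfl | ⟨T', hT', rfl⟩
    · rfl
    · exfalso
      simp only [mem_insert, mem_singleton] at hxS hxR
      rcases hxS with rfl | rfl <;> simp at hxR
    · exfalso
      simp only [mem_insert, mem_singleton] at hxS
      rcases hxS with rfl | rfl <;> simp only [mem_product, mem_univ, and_true] at hxR
      · exact h.nc _ hT' hxR
      · exact h.nd _ hT' hxR
    · exfalso
      simp only [mem_insert, mem_singleton] at hxS hxR
      rcases hxS with rfl | rfl <;> simp at hxR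
    · rfl
    · exfalso
      simp only [mem_insert, mem_singleton] at hxS
      rcases hxS with rfl | rfl <;> simp only [mem_product, mem_univ, and_true] at hxR
      · exact h.nb _ hT' hxR
      · exact h.nd _ hT' hxR
    · exfalso
      simp only [mem_insert, mem_singleton] at hxR
      rcases hxR with rfl | rfl <;> simp only [mem_product, mem_univ, and_true] at hxS
      · exact h.nc _ hT hxS
      · exact h.nd _ hT hxS
    · exfalso
      simp only [mem_insert, mem_singleton] at hxR
      rcases hxR with rfl | rfl <;> simp only [mem_product, mem_univ, and_true] at hxS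
      · exact h.nb _ hT hxS
      · exact h.nd _ hT hxS
    · obtain ⟨x, i⟩ := x
      simp only [mem_product, mem_univ, and_true] at hxS hxR
      rw [h.disj T hT T' hT' x hxS hxR]
  · -- the first pairing
    intro U hU hsat hp hq
    have s1 : (c, (0 : ZMod 2)) ∈ U ↔ (d, (0 : ZMod 2)) ∈ U :=
      ⟨hsat _ ((hnx _).mpr (Or.inl rfl)) _ (mem_insert_self _ _) _
        (mem_insert_of_mem (mem_singleton_self _)),
       hsat _ ((hnx _).mpr (Or.inl rfl)) _ (mem_insert_of_mem (mem_singleton_self _)) _
        (mem_insert_self _ _)⟩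
    have s2 : (b, (1 : ZMod 2)) ∈ U ↔ (d, (1 : ZMod 2)) ∈ U :=
      ⟨hsat _ ((hnx _).mpr (Or.inr (Or.inl rfl))) _ (mem_insert_self _ _) _
        (mem_insert_of_mem (mem_singleton_self _)),
       hsat _ ((hnx _).mpr (Or.inr (Or.inl rfl))) _ (mem_insert_of_mem (mem_singleton_self _)) _
        (mem_insert_self _ _)⟩
    have s3 : ∀ T ∈ C, Sat (T ×ˢ univ) U := fun T hT =>
      hsat _ ((hnx _).mpr (Or.inr (Or.inr ⟨T, hT, rfl⟩)))
    by_cases hmeet : ∃ T ∈ C, ∃ x ∈ T, (x, (0 : ZMod 2)) ∈ U
    · obtain ⟨T, hT, x, hx, hxU⟩ := hmeet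
      rcases h.prism hU s3 hp s1 hT hx hxU with h1 | h1
      · exact Or.inl h1
      · exact Or.inr (Or.inl h1)
    · push Not at hmeet
      have hno1 : ∀ T ∈ C, ∀ x ∈ T, (x, (1 : ZMod 2)) ∉ U := by
        intro T hT x hx hxU
        exact hmeet T hT x hx (s3 T hT (x, 1) (by simpa using hx) (x, 0) (by simpa using hx) hxU)
      have c0 := h.slice hU 0 hmeet hp s1
      have c1 := h.swap.slice hU 1 hno1 hq.symm s2
      rcases c0 with c0 | c0 | c0 <;> rcases c1 with c1 | c1 | c1
      · exfalso
        obtain ⟨⟨x, i⟩, hx⟩ := hU.1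
        rcases zmod2 i with rfl | rfl
        · exact c0 x hx
        · exact c1 x hx
      · right; right; right
        refine ext_slices (fun x => ?_) (fun x => ?_)
        · simp [c0 x]
        · rw [c1 x]
          simp [or_comm]
      · right; left
        rw [hnx]
        right; left
        refine ext_slices (fun x => ?_) (fun x => ?_)
        · simp [c0 x]
        · rw [c1 x]
          simp
      · right; right; left
        refine ext_slices (fun x => ?_) (fun x => ?_)
        · rw [c0 x]
          simp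
        · simp [c1 x]
      · exfalso
        have := shift hU ((c0 a).mpr (Or.inl rfl)) ((c0 b).mpr (Or.inr rfl)) ((c1 a).mpr (Or.inl rfl))
        rw [char2 h.two, c1] at this
        rcases this with h1 | h1
        · exact hba h1
        · exact hbc h1
      · exfalso
        have := shift hU ((c0 b).mpr (Or.inr rfl)) ((c0 a).mpr (Or.inl rfl)) ((c1 b).mpr (Or.inl rfl))
        rw [char2 h.two, c1] at this
        rcases this with h1 | h1
        · exact hab h1
        · exact had h1
      · right; left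
        rw [hnx]
        left
        refine ext_slices (fun x => ?_) (fun x => ?_)
        · rw [c0 x]
          simp
        · simp [c1 x]
      · exfalso
        have := shift hU ((c0 c).mpr (Or.inl rfl)) ((c0 d).mpr (Or.inr rfl)) ((c1 c).mpr (Or.inr rfl))
        rw [char2 h.two, c1] at this
        rcases this with h1 | h1
        · exact hda h1
        · exact hdc h1
      · exfalso
        have := shift hU ((c0 d).mpr (Or.inr rfl)) ((c0 c).mpr (Or.inl rfl)) ((c1 d).mpr (Or.inr rfl))
        rw [char2 h.two, c1] at this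
        rcases this with h1 | h1
        · exact hcb h1
        · exact hcd h1
  · -- the second pairing
    intro U hU hsat hp hq
    have s1 : (c, (0 : ZMod 2)) ∈ U ↔ (d, (0 : ZMod 2)) ∈ U :=
      ⟨hsat _ ((hnx _).mpr (Or.inl rfl)) _ (mem_insert_self _ _) _
        (mem_insert_of_mem (mem_singleton_self _)),
       hsat _ ((hnx _).mpr (Or.inl rfl)) _ (mem_insert_of_mem (mem_singleton_self _)) _
        (mem_insert_self _ _)⟩
    have s2 : (b, (1 : ZMod 2)) ∈ U ↔ (d, (1 : ZMod 2)) ∈ U :=
      ⟨hsat _ ((hnx _).mpr (Or.inr (Or.inl rfl))) _ (mem_insert_self _ _) _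
        (mem_insert_of_mem (mem_singleton_self _)),
       hsat _ ((hnx _).mpr (Or.inr (Or.inl rfl))) _ (mem_insert_of_mem (mem_singleton_self _)) _
        (mem_insert_self _ _)⟩
    have s3 : ∀ T ∈ C, Sat (T ×ˢ univ) U := fun T hT =>
      hsat _ ((hnx _).mpr (Or.inr (Or.inr ⟨T, hT, rfl⟩)))
    by_cases hmeet : ∃ T ∈ C, ∃ x ∈ T, (x, (0 : ZMod 2)) ∈ U
    · obtain ⟨T, hT, x, hx, hxU⟩ := hmeet
      have hx1 : (x, (1 : ZMod 2)) ∈ U :=
        s3 T hT (x, 0) (by simpa using hx) (x, 1) (by simpa using hx) hxU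
      have hm := meet hU hxU hx1
      have hp' : (a, (0 : ZMod 2)) ∈ U ↔ (b, (0 : ZMod 2)) ∈ U := by
        rw [hq, hm a]
      rcases h.prism hU s3 hp' s1 hT hx hxU with h1 | h1
      · exact Or.inl h1
      · exact Or.inr (Or.inl h1)
    · push Not at hmeet
      have hno1 : ∀ T ∈ C, ∀ x ∈ T, (x, (1 : ZMod 2)) ∉ U := by
        intro T hT x hx hxU
        exact hmeet T hT x hx (s3 T hT (x, 1) (by simpa using hx) (x, 0) (by simpa using hx) hxU)
      have hmem : ∀ y, y ∈ (univ.filter fun y => (y, (0 : ZMod 2)) ∈ U) ↔ (y, (0 : ZMod 2)) ∈ U :=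
        fun y => by simp
      have hsat0 : ∀ T ∈ C, Sat T (univ.filter fun y => (y, (0 : ZMod 2)) ∈ U) :=
        fun T hT p hp q _ hpU => absurd ((hmem p).mp hpU) (hmeet T hT p hp)
      by_cases ha : (a, (0 : ZMod 2)) ∈ U
      · by_cases hb : (b, (0 : ZMod 2)) ∈ U
        · exfalso
          have hc1 := hp.mp ha
          have ha1 := hq.mp hb
          have c0 := h.slice hU 0 hmeet ⟨fun _ => hb, fun _ => ha⟩ s1
          have c1 := h.swap.slice hU 1 hno1 ⟨fun _ => hc1, fun _ => ha1⟩ s2
          have c0' : ∀ x, (x, (0 : ZMod 2)) ∈ U ↔ x = a ∨ x = b := by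
            rcases c0 with c0 | c0 | c0
            · exact absurd ha (c0 a)
            · exact c0
            · rcases (c0 a).mp ha with h1 | h1
              · exact absurd h1 hac
              · exact absurd h1 had
          have c1' : ∀ x, (x, (1 : ZMod 2)) ∈ U ↔ x = a ∨ x = c := by
            rcases c1 with c1 | c1 | c1
            · exact absurd ha1 (c1 a)
            · exact c1
            · rcases (c1 a).mp ha1 with h1 | h1
              · exact absurd h1 hab
              · exact absurd h1 had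
          have := shift hU ha hb ha1
          rw [char2 h.two, c1'] at this
          rcases this with h1 | h1
          · exact hba h1
          · exact hbc h1
        · have hc1 := hp.mp ha
          have hsing := h.single (slice_cl hU ha) hsat0 (by rw [hmem, hmem]; exact s1)
            ((hmem a).mpr ha) (Or.inl rfl) (by
              intro x hx hxab
              rw [hmem] at hx
              rcases hxab with rfl | rfl
              · rfl
              · exact absurd hx hb)
          have c0 : ∀ x, (x, (0 : ZMod 2)) ∈ U ↔ x = a := by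
            intro x
            rw [← hmem, hsing, mem_singleton]
          right; right; left
          refine ext_slices (fun x => ?_) (fun x => ?_)
          · rw [c0 x]
            simp
          · constructor
            · intro hx
              have := shift hU hx hc1 ha
              rw [c0] at this
              have h5 : x - c = 0 := by
                have h6 : x - c + a = 0 + a := by rw [this, zero_add]
                exact add_right_cancel h6
              rw [sub_eq_zero.mp h5]
              simp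
            · intro hx
              simp at hx
              rw [hx]
              exact hc1
      · by_cases hb : (b, (0 : ZMod 2)) ∈ U
        · have ha1 := hq.mp hb
          have hsing := h.single (slice_cl hU hb) hsat0 (by rw [hmem, hmem]; exact s1)
            ((hmem b).mpr hb) (Or.inr rfl) (by
              intro x hx hxab
              rw [hmem] at hx
              rcases hxab with rfl | rfl
              · exact absurd hx ha
              · rfl)
          have c0 : ∀ x, (x, (0 : ZMod 2)) ∈ U ↔ x = b := by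
            intro x
            rw [← hmem, hsing, mem_singleton]
          right; right; right
          refine ext_slices (fun x => ?_) (fun x => ?_)
          · rw [c0 x]
            simp
          · constructor
            · intro hx
              have := shift hU hx ha1 hb
              rw [c0] at this
              have h5 : x - a = 0 := by
                have h6 : x - a + b = 0 + b := by rw [this, zero_add]
                exact add_right_cancel h6
              rw [sub_eq_zero.mp h5]
              simp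
            · intro hx
              simp at hx
              rw [hx]
              exact ha1
        · have hc1 : (c, (1 : ZMod 2)) ∉ U := fun h' => ha (hp.mpr h')
          have ha1 : (a, (1 : ZMod 2)) ∉ U := fun h' => hb (hq.mpr h')
          have c0 := h.slice hU 0 hmeet ⟨fun h' => absurd h' ha, fun h' => absurd h' hb⟩ s1
          have c1 := h.swap.slice hU 1 hno1 ⟨fun h' => absurd h' ha1, fun h' => absurd h' hc1⟩ s2
          rcases c0 with c0 | c0 | c0
          · rcases c1 with c1 | c1 | c1
            · exfalso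
              obtain ⟨⟨x, i⟩, hx⟩ := hU.1
              rcases zmod2 i with rfl | rfl
              · exact c0 x hx
              · exact c1 x hx
            · exact absurd ((c1 a).mpr (Or.inl rfl)) ha1
            · right; left
              rw [hnx]
              right; left
              refine ext_slices (fun x => ?_) (fun x => ?_)
              · simp [c0 x]
              · rw [c1 x]
                simp
          · exact absurd ((c0 a).mpr (Or.inl rfl)) ha
          · rcases c1 with c1 | c1 | c1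
            · right; left
              rw [hnx]
              left
              refine ext_slices (fun x => ?_) (fun x => ?_)
              · rw [c0 x]
                simp
              · simp [c1 x]
            · exact absurd ((c1 a).mpr (Or.inl rfl)) ha1
            · exfalso
              have := shift hU ((c0 d).mpr (Or.inr rfl)) ((c0 c).mpr (Or.inl rfl))
                ((c1 d).mpr (Or.inr rfl))
              rw [char2 h.two, c1] at this
              rcases this with h1 | h1
              · exact hcb h1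
              · exact hcd h1

theorem Good.next_card {C : Finset (Finset V)} {a b c d : V} (h : Good C a b c d) :
    (next C b c d).card = C.card + 2 := by
  have hinj : Function.Injective fun T : Finset V => T ×ˢ (univ : Finset (ZMod 2)) := by
    intro S T hST
    ext x
    have : (x, (0 : ZMod 2)) ∈ S ×ˢ (univ : Finset (ZMod 2)) ↔
        (x, (0 : ZMod 2)) ∈ T ×ˢ (univ : Finset (ZMod 2)) := by
      change S ×ˢ (univ : Finset (ZMod 2)) = T ×ˢ univ at hST
      rw [hST]
    simpa using this
  have h1 : ({(b, 1), (d, 1)} : Finset (V × ZMod 2)) ∉ C.image fun T => T ×ˢ univ := by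
    rw [mem_image]
    rintro ⟨T, hT, hTe⟩
    have : (b, (1 : ZMod 2)) ∈ T ×ˢ (univ : Finset (ZMod 2)) := by
      rw [hTe]
      exact mem_insert_self _ _
    exact h.nb T hT (by simpa using this)
  have h2 : ({(c, 0), (d, 0)} : Finset (V × ZMod 2)) ∉
      insert {(b, 1), (d, 1)} (C.image fun T => T ×ˢ univ) := by
    rw [mem_insert, mem_image]
    rintro (h3 | ⟨T, hT, hTe⟩)
    · have : (c, (0 : ZMod 2)) ∈ ({(b, 1), (d, 1)} : Finset (V × ZMod 2)) := by
        rw [← h3]
        exact mem_insert_self _ _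
      simp at this
    · have : (c, (0 : ZMod 2)) ∈ T ×ˢ (univ : Finset (ZMod 2)) := by
        rw [hTe]
        exact mem_insert_self _ _
      exact h.nc T hT (by simpa using this)
  rw [next, card_insert_of_notMem h2, card_insert_of_notMem h1, card_image_of_injective _ hinj]


/-! ### Checking small cases -/

theorem irr_of_table {m : ℕ} (P : Fin m → Finset V) (tile : V → Fin m)
    (htile : ∀ x i, x ∈ P i ↔ tile x = i) (K : List (V × V × V))
    (hcheck : ∀ t : Fin m → Bool, (∃ i j, i ≠ j ∧ t i = true ∧ t j = true) → (∃ i, t i = false) →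
      ∃ k ∈ K, t (tile k.1) = true ∧ t (tile k.2.1) = true ∧ t (tile k.2.2) = true ∧
        t (tile (k.1 - k.2.1 + k.2.2)) = false)
    (U : Finset V) (hU : Cl U) (hsat : ∀ i, Sat (P i) U) : U = univ ∨ ∃ i, U = P i := by
  have hin : ∀ x, x ∈ P (tile x) := fun x => (htile x _).mpr rfl
  let t : Fin m → Bool := fun i => decide (∃ x ∈ P i, x ∈ U)
  have ht : ∀ x, t (tile x) = true ↔ x ∈ U := by
    intro x
    simp only [t, decide_eq_true_eq]
    constructor
    · rintro ⟨y, hy, hyU⟩
      exact hsat _ y hy x (hin x) hyU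
    · intro hx
      exact ⟨x, hin x, hx⟩
  have ht' : ∀ x, t (tile x) = false ↔ x ∉ U := by
    intro x
    rw [← ht, Bool.not_eq_true]
  by_contra hcon
  push Not at hcon
  obtain ⟨h1, h2⟩ := hcon
  obtain ⟨x, hx⟩ := hU.1
  obtain ⟨y, hyU, hy⟩ : ∃ y ∈ U, y ∉ P (tile x) := by
    by_contra hc
    push Not at hc
    exact h2 (tile x) (Subset.antisymm hc fun z hz => hsat _ x (hin x) z hz hx)
  obtain ⟨z, hz⟩ : ∃ z, z ∉ U := by
    by_contra hc
    push Not at hc
    exact h1 (eq_univ_iff_forall.mpr hc)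
  obtain ⟨k, -, hk1, hk2, hk3, hk4⟩ := hcheck t
    ⟨tile x, tile y, fun h => hy ((htile y _).mpr h.symm), (ht x).mpr hx, (ht y).mpr hyU⟩
    ⟨tile z, (ht' z).mpr hz⟩
  exact (ht' _).mp hk4 (hU.2 _ ((ht _).mp hk1) _ ((ht _).mp hk2) _ ((ht _).mp hk3))

end group

/-- The group `F_2^3`, written as numbers with exclusive or. -/
def X8 : Type := Fin 8

instance : DecidableEq X8 := inferInstanceAs (DecidableEq (Fin 8))

instance : Fintype X8 := inferInstanceAs (Fintype (Fin 8))

instance : Zero X8 := ⟨⟨0, by decide⟩⟩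

instance : Add X8 := ⟨fun x y => ⟨Nat.xor x.1 y.1, Nat.xor_lt_two_pow (n := 3) x.2 y.2⟩⟩

instance : Neg X8 := ⟨fun x => x⟩

instance : AddCommGroup X8 where
  add_assoc x y z := Fin.ext (Nat.xor_assoc x.1 y.1 z.1)
  zero_add x := Fin.ext (Nat.zero_xor x.1)
  add_zero x := Fin.ext (Nat.xor_zero x.1)
  add_comm x y := Fin.ext (Nat.xor_comm x.1 y.1)
  neg_add_cancel x := Fin.ext (Nat.xor_self x.1)
  nsmul := nsmulRec
  zsmul := zsmulRec

theorem X8.two (x : X8) : x + x = 0 := Fin.ext (Nat.xor_self x.1)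

/-- The group `F_2^4`, written as numbers with exclusive or. -/
def X16 : Type := Fin 16

instance : DecidableEq X16 := inferInstanceAs (DecidableEq (Fin 16))

instance : Fintype X16 := inferInstanceAs (Fintype (Fin 16))

instance : Zero X16 := ⟨⟨0, by decide⟩⟩

instance : Add X16 := ⟨fun x y => ⟨Nat.xor x.1 y.1, Nat.xor_lt_two_pow (n := 4) x.2 y.2⟩⟩

instance : Neg X16 := ⟨fun x => x⟩

instance : AddCommGroup X16 where
  add_assoc x y z := Fin.ext (Nat.xor_assoc x.1 y.1 z.1)
  zero_add x := Fin.ext (Nat.zero_xor x.1)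
  add_zero x := Fin.ext (Nat.xor_zero x.1)
  add_comm x y := Fin.ext (Nat.xor_comm x.1 y.1)
  neg_add_cancel x := Fin.ext (Nat.xor_self x.1)
  nsmul := nsmulRec
  zsmul := zsmulRec

theorem X16.two (x : X16) : x + x = 0 := Fin.ext (Nat.xor_self x.1)

/-- Element number `k`. -/
def e8 (k : ℕ) : X8 := ⟨k % 8, Nat.mod_lt k (by decide)⟩

/-- Element number `k`. -/
def e16 (k : ℕ) : X16 := ⟨k % 16, Nat.mod_lt k (by decide)⟩

theorem sat_pair {V : Type} [DecidableEq V] {a b : V} {U : Finset V}
    (hab : a ∈ U ↔ b ∈ U) : Sat {a, b} U := by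
  intro x hx y hy hxU
  simp only [mem_insert, mem_singleton] at hx hy
  rcases hx with rfl | rfl <;> rcases hy with rfl | rfl
  · exact hxU
  · exact hab.mp hxU
  · exact hab.mpr hxU
  · exact hxU

instance {V : Type} [AddCommGroup V] [Fintype V] [DecidableEq V] (U : Finset V) :
    Decidable (Cl U) := by
  unfold Cl
  infer_instance

def Q4 : Fin 2 → Finset X8 :=
  ![{e8 0, e8 4}, {e8 1, e8 3}]

def C4 : Finset (Finset X8) := univ.image Q4

theorem mem4 (T : Finset X8) : T ∈ C4 ↔ ∃ i, Q4 i = T := by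
  simp [C4]

theorem Q4_disj : ∀ i j x, x ∈ Q4 i → x ∈ Q4 j → i = j := by decide +kernel

theorem Q4_cl : ∀ i, Cl (Q4 i) := by decide +kernel

theorem C4_card : C4.card = 2 := by
  rw [C4, card_image_of_injective _ ?_, card_fin]
  intro i j hij
  obtain ⟨x, hx⟩ := (Q4_cl i).1
  exact Q4_disj i j x hx (hij ▸ hx)

def P4a : Fin 4 → Finset X8 :=
  ![{e8 0, e8 4}, {e8 1, e8 3}, {e8 6, e8 7}, {e8 5, e8 2}]

def tile4a : X8 → Fin 4 :=
  fun x => (![0, 1, 3, 1, 0, 3, 2, 2] : Fin 8 → Fin 4) x

def K4a : List (X8 × X8 × X8) :=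
  [(e8 0, e8 1, e8 3), (e8 0, e8 2, e8 4), (e8 0, e8 4, e8 7), (e8 1, e8 2, e8 3), (e8 1, e8 3,
    e8 6), (e8 2, e8 5, e8 6)]

def P4b : Fin 4 → Finset X8 :=
  ![{e8 0, e8 4}, {e8 1, e8 3}, {e8 6, e8 5}, {e8 7, e8 2}]

def tile4b : X8 → Fin 4 :=
  fun x => (![0, 1, 3, 1, 0, 2, 2, 3] : Fin 8 → Fin 4) x

def K4b : List (X8 × X8 × X8) :=
  [(e8 0, e8 1, e8 3), (e8 0, e8 2, e8 4), (e8 0, e8 4, e8 5), (e8 1, e8 2, e8 3), (e8 1, e8 3,
    e8 5), (e8 2, e8 5, e8 6)]

theorem good4 : Good C4 (e8 6) (e8 7) (e8 5) (e8 2) where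
  two := X8.two
  ne := ⟨Q4 0, (mem4 _).mpr ⟨0, rfl⟩⟩
  cl := by
    intro T hT
    obtain ⟨i, rfl⟩ := (mem4 T).mp hT
    exact Q4_cl i
  even := by
    have : ∀ i, Even (Q4 i).card := by decide +kernel
    intro T hT
    obtain ⟨i, rfl⟩ := (mem4 T).mp hT
    exact this i
  ab := by decide +kernel
  ac := by decide +kernel
  ad := by decide +kernel
  bc := by decide +kernel
  bd := by decide +kernel
  cd := by decide +kernel
  na := by
    have : ∀ i, e8 6 ∉ Q4 i := by decide +kernel
    intro T hT
    obtain ⟨i, rfl⟩ := (mem4 T).mp hT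
    exact this i
  nb := by
    have : ∀ i, e8 7 ∉ Q4 i := by decide +kernel
    intro T hT
    obtain ⟨i, rfl⟩ := (mem4 T).mp hT
    exact this i
  nc := by
    have : ∀ i, e8 5 ∉ Q4 i := by decide +kernel
    intro T hT
    obtain ⟨i, rfl⟩ := (mem4 T).mp hT
    exact this i
  nd := by
    have : ∀ i, e8 2 ∉ Q4 i := by decide +kernel
    intro T hT
    obtain ⟨i, rfl⟩ := (mem4 T).mp hT
    exact this i
  cover := by
    have : ∀ x, x = e8 6 ∨ x = e8 7 ∨ x = e8 5 ∨ x = e8 2 ∨ ∃ i, x ∈ Q4 i := by
      decide +kernel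
    intro x
    rcases this x with h | h | h | h | ⟨i, h⟩
    · exact Or.inl h
    · exact Or.inr (Or.inl h)
    · exact Or.inr (Or.inr (Or.inl h))
    · exact Or.inr (Or.inr (Or.inr (Or.inl h)))
    · exact Or.inr (Or.inr (Or.inr (Or.inr ⟨_, (mem4 _).mpr ⟨i, rfl⟩, h⟩)))
  disj := by
    intro S hS T hT x hxS hxT
    obtain ⟨i, rfl⟩ := (mem4 S).mp hS
    obtain ⟨j, rfl⟩ := (mem4 T).mp hT
    rw [Q4_disj i j x hxS hxT]
  irr1 := by
    intro U hU hsat hp hq
    have hs : ∀ i, Sat (P4a i) U := by
      intro i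
      fin_cases i
      · exact hsat _ ((mem4 _).mpr ⟨0, rfl⟩)
      · exact hsat _ ((mem4 _).mpr ⟨1, rfl⟩)
      · exact sat_pair hp
      · exact sat_pair hq
    rcases irr_of_table P4a tile4a (by decide +kernel) K4a (by decide +kernel) U hU hs
      with h | ⟨i, h⟩
    · exact Or.inl h
    · fin_cases i
      · exact Or.inr (Or.inl ((mem4 _).mpr ⟨0, h.symm⟩))
      · exact Or.inr (Or.inl ((mem4 _).mpr ⟨1, h.symm⟩))
      · exact Or.inr (Or.inr (Or.inl h))
      · exact Or.inr (Or.inr (Or.inr h))
  irr2 := by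
    intro U hU hsat hp hq
    have hs : ∀ i, Sat (P4b i) U := by
      intro i
      fin_cases i
      · exact hsat _ ((mem4 _).mpr ⟨0, rfl⟩)
      · exact hsat _ ((mem4 _).mpr ⟨1, rfl⟩)
      · exact sat_pair hp
      · exact sat_pair hq
    rcases irr_of_table P4b tile4b (by decide +kernel) K4b (by decide +kernel) U hU hs
      with h | ⟨i, h⟩
    · exact Or.inl h
    · fin_cases i
      · exact Or.inr (Or.inl ((mem4 _).mpr ⟨0, h.symm⟩))
      · exact Or.inr (Or.inl ((mem4 _).mpr ⟨1, h.symm⟩))
      · exact Or.inr (Or.inr (Or.inl h))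
      · exact Or.inr (Or.inr (Or.inr h))

def Q7 : Fin 5 → Finset X16 :=
  ![{e16 0, e16 1, e16 2, e16 3}, {e16 6, e16 8}, {e16 7, e16 10}, {e16 11, e16 15}, {e16 13,
    e16 14}]

def C7 : Finset (Finset X16) := univ.image Q7

theorem mem7 (T : Finset X16) : T ∈ C7 ↔ ∃ i, Q7 i = T := by
  simp [C7]

theorem Q7_disj : ∀ i j x, x ∈ Q7 i → x ∈ Q7 j → i = j := by decide +kernel

theorem Q7_cl : ∀ i, Cl (Q7 i) := by decide +kernel

theorem C7_card : C7.card = 5 := by
  rw [C7, card_image_of_injective _ ?_, card_fin]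
  intro i j hij
  obtain ⟨x, hx⟩ := (Q7_cl i).1
  exact Q7_disj i j x hx (hij ▸ hx)

def P7a : Fin 7 → Finset X16 :=
  ![{e16 0, e16 1, e16 2, e16 3}, {e16 6, e16 8}, {e16 7, e16 10}, {e16 11, e16 15}, {e16 13,
    e16 14}, {e16 4, e16 5}, {e16 12, e16 9}]

def tile7a : X16 → Fin 7 :=
  fun x => (![0, 0, 0, 0, 5, 5, 1, 2, 1, 6, 2, 3, 6, 4, 4, 3] : Fin 16 → Fin 7) x

def K7a : List (X16 × X16 × X16) :=
  [(e16 0, e16 1, e16 6), (e16 0, e16 1, e16 7), (e16 4, e16 9, e16 12), (e16 6, e16 7, e16 8),
    (e16 7, e16 9, e16 10), (e16 11, e16 14, e16 15), (e16 0, e16 1, e16 9), (e16 4, e16 5,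
    e16 13), (e16 4, e16 5, e16 15), (e16 4, e16 5, e16 10), (e16 6, e16 8, e16 9), (e16 7,
    e16 10, e16 11), (e16 0, e16 1, e16 11), (e16 0, e16 1, e16 13), (e16 0, e16 2, e16 4),
    (e16 4, e16 5, e16 6), (e16 6, e16 8, e16 11), (e16 6, e16 8, e16 13), (e16 7, e16 10,
    e16 13), (e16 9, e16 11, e16 12), (e16 9, e16 12, e16 13)]

def P7b : Fin 7 → Finset X16 :=
  ![{e16 0, e16 1, e16 2, e16 3}, {e16 6, e16 8}, {e16 7, e16 10}, {e16 11, e16 15}, {e16 13,
    e16 14}, {e16 4, e16 12}, {e16 5, e16 9}]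

def tile7b : X16 → Fin 7 :=
  fun x => (![0, 0, 0, 0, 5, 6, 1, 2, 1, 6, 2, 3, 5, 4, 4, 3] : Fin 16 → Fin 7) x

def K7b : List (X16 × X16 × X16) :=
  [(e16 0, e16 1, e16 4), (e16 0, e16 1, e16 5), (e16 4, e16 5, e16 9), (e16 4, e16 8, e16 12),
    (e16 6, e16 8, e16 10), (e16 13, e16 14, e16 15), (e16 0, e16 1, e16 6), (e16 7, e16 10,
    e16 11), (e16 0, e16 1, e16 10), (e16 4, e16 12, e16 13), (e16 5, e16 6, e16 9), (e16 0,
    e16 1, e16 15), (e16 5, e16 7, e16 9), (e16 0, e16 1, e16 13), (e16 4, e16 7, e16 10),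
    (e16 4, e16 11, e16 12), (e16 5, e16 9, e16 11), (e16 5, e16 9, e16 13), (e16 6, e16 8,
    e16 11), (e16 6, e16 8, e16 13), (e16 7, e16 10, e16 13)]

theorem good7 : Good C7 (e16 4) (e16 5) (e16 12) (e16 9) where
  two := X16.two
  ne := ⟨Q7 0, (mem7 _).mpr ⟨0, rfl⟩⟩
  cl := by
    intro T hT
    obtain ⟨i, rfl⟩ := (mem7 T).mp hT
    exact Q7_cl i
  even := by
    have : ∀ i, Even (Q7 i).card := by decide +kernel
    intro T hT
    obtain ⟨i, rfl⟩ := (mem7 T).mp hT
    exact this i
  ab := by decide +kernel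
  ac := by decide +kernel
  ad := by decide +kernel
  bc := by decide +kernel
  bd := by decide +kernel
  cd := by decide +kernel
  na := by
    have : ∀ i, e16 4 ∉ Q7 i := by decide +kernel
    intro T hT
    obtain ⟨i, rfl⟩ := (mem7 T).mp hT
    exact this i
  nb := by
    have : ∀ i, e16 5 ∉ Q7 i := by decide +kernel
    intro T hT
    obtain ⟨i, rfl⟩ := (mem7 T).mp hT
    exact this i
  nc := by
    have : ∀ i, e16 12 ∉ Q7 i := by decide +kernel
    intro T hT
    obtain ⟨i, rfl⟩ := (mem7 T).mp hT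
    exact this i
  nd := by
    have : ∀ i, e16 9 ∉ Q7 i := by decide +kernel
    intro T hT
    obtain ⟨i, rfl⟩ := (mem7 T).mp hT
    exact this i
  cover := by
    have : ∀ x, x = e16 4 ∨ x = e16 5 ∨ x = e16 12 ∨ x = e16 9 ∨ ∃ i, x ∈ Q7 i := by
      decide +kernel
    intro x
    rcases this x with h | h | h | h | ⟨i, h⟩
    · exact Or.inl h
    · exact Or.inr (Or.inl h)
    · exact Or.inr (Or.inr (Or.inl h))
    · exact Or.inr (Or.inr (Or.inr (Or.inl h)))
    · exact Or.inr (Or.inr (Or.inr (Or.inr ⟨_, (mem7 _).mpr ⟨i, rfl⟩, h⟩)))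
  disj := by
    intro S hS T hT x hxS hxT
    obtain ⟨i, rfl⟩ := (mem7 S).mp hS
    obtain ⟨j, rfl⟩ := (mem7 T).mp hT
    rw [Q7_disj i j x hxS hxT]
  irr1 := by
    intro U hU hsat hp hq
    have hs : ∀ i, Sat (P7a i) U := by
      intro i
      fin_cases i
      · exact hsat _ ((mem7 _).mpr ⟨0, rfl⟩)
      · exact hsat _ ((mem7 _).mpr ⟨1, rfl⟩)
      · exact hsat _ ((mem7 _).mpr ⟨2, rfl⟩)
      · exact hsat _ ((mem7 _).mpr ⟨3, rfl⟩)
      · exact hsat _ ((mem7 _).mpr ⟨4, rfl⟩)
      · exact sat_pair hp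
      · exact sat_pair hq
    rcases irr_of_table P7a tile7a (by decide +kernel) K7a (by decide +kernel) U hU hs
      with h | ⟨i, h⟩
    · exact Or.inl h
    · fin_cases i
      · exact Or.inr (Or.inl ((mem7 _).mpr ⟨0, h.symm⟩))
      · exact Or.inr (Or.inl ((mem7 _).mpr ⟨1, h.symm⟩))
      · exact Or.inr (Or.inl ((mem7 _).mpr ⟨2, h.symm⟩))
      · exact Or.inr (Or.inl ((mem7 _).mpr ⟨3, h.symm⟩))
      · exact Or.inr (Or.inl ((mem7 _).mpr ⟨4, h.symm⟩))
      · exact Or.inr (Or.inr (Or.inl h))
      · exact Or.inr (Or.inr (Or.inr h))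
  irr2 := by
    intro U hU hsat hp hq
    have hs : ∀ i, Sat (P7b i) U := by
      intro i
      fin_cases i
      · exact hsat _ ((mem7 _).mpr ⟨0, rfl⟩)
      · exact hsat _ ((mem7 _).mpr ⟨1, rfl⟩)
      · exact hsat _ ((mem7 _).mpr ⟨2, rfl⟩)
      · exact hsat _ ((mem7 _).mpr ⟨3, rfl⟩)
      · exact hsat _ ((mem7 _).mpr ⟨4, rfl⟩)
      · exact sat_pair hp
      · exact sat_pair hq
    rcases irr_of_table P7b tile7b (by decide +kernel) K7b (by decide +kernel) U hU hs
      with h | ⟨i, h⟩
    · exact Or.inl h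
    · fin_cases i
      · exact Or.inr (Or.inl ((mem7 _).mpr ⟨0, h.symm⟩))
      · exact Or.inr (Or.inl ((mem7 _).mpr ⟨1, h.symm⟩))
      · exact Or.inr (Or.inl ((mem7 _).mpr ⟨2, h.symm⟩))
      · exact Or.inr (Or.inl ((mem7 _).mpr ⟨3, h.symm⟩))
      · exact Or.inr (Or.inl ((mem7 _).mpr ⟨4, h.symm⟩))
      · exact Or.inr (Or.inr (Or.inl h))
      · exact Or.inr (Or.inr (Or.inr h))

/-- There is a good configuration with `k` parts in `C` -/
def Ex (k : ℕ) : Prop :=
  ∃ (V : Type) (_ : AddCommGroup V) (_ : Fintype V) (_ : DecidableEq V) (C : Finset (Finset V))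
    (a b c d : V), Good C a b c d ∧ C.card = k

theorem Ex.step {k : ℕ} (h : Ex k) : Ex (k + 2) := by
  obtain ⟨V, i1, i2, i3, C, a, b, c, d, hg, hc⟩ := h
  exact ⟨V × ZMod 2, inferInstance, inferInstance, inferInstance, next C b c d, (a, 0), (b, 0),
    (c, 1), (a, 1), hg.step, by rw [hg.next_card, hc]⟩

theorem Ex.steps {k : ℕ} (h : Ex k) (m : ℕ) : Ex (k + 2 * m) := by
  induction m with
  | zero => exact h
  | succ m ih => exact ih.step

/-- The number `n` is good: there is a primitive lattice tiling with `n` translates. -/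
def Works (n : ℕ) : Prop :=
  ∃ (d : ℕ) (A : Fin n → Set (Fin d → ℤ)), 1 ≤ d ∧ IsLatticeTiling A ∧ IsPrimitive A

theorem Ex.works {k : ℕ} (h : Ex k) : Works (k + 2) := by
  obtain ⟨V, i1, i2, i3, C, a, b, c, d, hg, hc⟩ := h
  have h1 := exists_tiling hg.isIrr
  rw [hg.card, hc] at h1
  exact h1

theorem works_even (m : ℕ) : Works (2 * m + 4) := by
  have h : Ex (2 + 2 * m) := Ex.steps ⟨X8, _, _, _, C4, _, _, _, _, good4, C4_card⟩ m
  have h2 := h.works
  have : 2 + 2 * m + 2 = 2 * m + 4 := by ring
  rwa [this] at h2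

theorem works_odd (m : ℕ) : Works (2 * m + 7) := by
  have h : Ex (5 + 2 * m) := Ex.steps ⟨X16, _, _, _, C7, _, _, _, _, good7, C7_card⟩ m
  have h2 := h.works
  have : 5 + 2 * m + 2 = 2 * m + 7 := by ring
  rwa [this] at h2

/-- The singletons of a group without proper subgroups. -/
theorem irr_prime {p : ℕ} [NeZero p]
    (h : ∀ U : Finset (ZMod p), Cl U → U = univ ∨ ∃ x, U = {x}) :
    IsIrr ((univ : Finset (ZMod p)).image fun x => ({x} : Finset (ZMod p))) where
  cl := by
    intro T hT
    obtain ⟨x, -, rfl⟩ := mem_image.mp hT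
    refine ⟨⟨x, mem_singleton_self x⟩, ?_⟩
    intro y hy z hz w hw
    rw [mem_singleton] at *
    rw [hy, hz, hw]
    abel
  cover := fun x => ⟨{x}, mem_image.mpr ⟨x, mem_univ x, rfl⟩, mem_singleton_self x⟩
  disj := by
    intro S hS T hT x hxS hxT
    obtain ⟨y, -, rfl⟩ := mem_image.mp hS
    obtain ⟨z, -, rfl⟩ := mem_image.mp hT
    rw [mem_singleton] at hxS hxT
    rw [← hxS, ← hxT]
  irr := by
    intro U hU _
    rcases h U hU with h1 | ⟨x, h1⟩
    · exact Or.inl h1
    · exact Or.inr (mem_image.mpr ⟨x, mem_univ x, h1.symm⟩)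

theorem works_prime {p : ℕ} [NeZero p]
    (h : ∀ U : Finset (ZMod p), Cl U → U = univ ∨ ∃ x, U = {x}) : Works p := by
  have h1 := exists_tiling (irr_prime h)
  rw [card_image_of_injective _ (singleton_injective), card_univ, ZMod.card] at h1
  exact h1

theorem works_one : Works 1 := works_prime (p := 1) (by decide +kernel)

theorem works_two : Works 2 := works_prime (p := 2) (by decide +kernel)

theorem works_three : Works 3 := works_prime (p := 3) (by decide +kernel)

theorem works_five : Works 5 := works_prime (p := 5) (by decide +kernel)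

/-- For every positive integer `n` there is a primitive lattice tiling with exactly `n` lattice
translates (of some `ℤ^d`, `d ≥ 1`). -/
theorem result (n : ℕ) (hn : 1 ≤ n) :
    ∃ (d : ℕ) (A : Fin n → Set (Fin d → ℤ)), 1 ≤ d ∧ IsLatticeTiling A ∧ IsPrimitive A := by
  change Works n
  rcases Nat.even_or_odd n with ⟨m, hm⟩ | ⟨m, hm⟩
  · by_cases h : n = 2
    · subst h
      exact works_two
    · have := works_even (m - 2)
      have h3 : 2 * (m - 2) + 4 = n := by omega
      rwa [h3] at this
  · by_cases h1 : n = 1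
    · subst h1
      exact works_one
    · by_cases h2 : n = 3
      · subst h2
        exact works_three
      · by_cases h3 : n = 5
        · subst h3
          exact works_five
        · have := works_odd (m - 3)
          have h4 : 2 * (m - 3) + 7 = n := by omega
          rwa [h4] at this

end Pool.Agent.Results.MP_f7d7fe_co.EveryNumber
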